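import Pool.Agent.TH346.CG.Defs

/-!
# Covering of the popular differences (piece GSC-COV2)
-/

set_option autoImplicit false

open Finset
open scoped Pointwise

namespace Pool.Agent.TH424.CG

open Pool.Agent.TH346.CG

/-- maximal disjoint family -/
theorem cover {Γ U : Type} [DecidableEq Γ] [DecidableEq U] (X : Finset U)
    (Z : Finset Γ) (R : Γ → Finset U) (q : ℕ) (hR : ∀ z ∈ Z, R z ⊆ X)
    (hq : ∀ z ∈ Z, X.card ≤ q * (R z).card) (hX : X.Nonempty) :
    ∃ Y ⊆ Z, Y.card ≤ q ∧ ∀ z ∈ Z, ∃ y ∈ Y, ∃ u, u ∈ R z ∧ u ∈ R y := by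
  classical
  have hRne : ∀ z ∈ Z, (R z).Nonempty := by
    intro z hz
    rw [nonempty_iff_ne_empty]
    intro h
    have h1 := hq z hz
    rw [h, card_empty, mul_zero] at h1
    have := hX.card_pos
    omega
  let F : Finset (Finset Γ) := Z.powerset.filter fun Y =>
    ∀ a ∈ Y, ∀ b ∈ Y, a ≠ b → Disjoint (R a) (R b)
  have hF : F.Nonempty := ⟨∅, by simp [F]⟩
  obtain ⟨Y, hYF, hmax⟩ := F.exists_max_image card hF
  have hY : Y ⊆ Z ∧ ∀ a ∈ Y, ∀ b ∈ Y, a ≠ b → Disjoint (R a) (R b) := by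
    simpa [F] using hYF
  refine ⟨Y, hY.1, ?_, ?_⟩
  · have h1 : ∑ y ∈ Y, (R y).card ≤ X.card := by
      rw [← card_biUnion (fun a ha b hb hab => hY.2 a ha b hb hab)]
      exact card_le_card (biUnion_subset.2 fun y hy => hR y (hY.1 hy))
    have h2 : Y.card * X.card ≤ q * X.card := by
      calc Y.card * X.card = ∑ _y ∈ Y, X.card := by rw [sum_const, smul_eq_mul]
        _ ≤ ∑ y ∈ Y, q * (R y).card := sum_le_sum fun y hy => hq y (hY.1 hy)
        _ = q * ∑ y ∈ Y, (R y).card := by rw [mul_sum]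
        _ ≤ q * X.card := Nat.mul_le_mul_left _ h1
    exact Nat.le_of_mul_le_mul_right h2 hX.card_pos
  · intro z hz
    by_cases hzY : z ∈ Y
    · obtain ⟨u, hu⟩ := hRne z hz
      exact ⟨z, hzY, u, hu, hu⟩
    by_contra hcon
    push Not at hcon
    have h1 : insert z Y ∈ F := by
      simp only [F, mem_filter, mem_powerset]
      refine ⟨insert_subset hz hY.1, ?_⟩
      intro a ha b hb hab
      rw [mem_insert] at ha hb
      rcases ha with rfl | ha <;> rcases hb with rfl | hb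
      · exact absurd rfl hab
      · rw [disjoint_left]
        exact fun u hu => hcon b hb u hu
      · rw [disjoint_right]
        exact fun u hu => hcon a ha u hu
      · exact hY.2 a ha b hb hab
    have h2 := hmax _ h1
    rw [card_insert_of_notMem hzY] at h2
    omega

section

variable {Γ : Type} [AddCommGroup Γ] [DecidableEq Γ]

lemma ks_add (D : Finset Γ) (a b : ℕ) (x y : Γ) (hx : x ∈ ks a D) (hy : y ∈ ks b D) :
    x + y ∈ ks (a + b) D := by
  induction b generalizing y with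
  | zero =>
    have : y = 0 := by simpa [ks] using hy
    rw [this, add_zero x]
    exact hx
  | succ b ih =>
    simp only [ks, mem_add] at hy
    obtain ⟨u, hu, d, hd, rfl⟩ := hy
    rw [← add_assoc, ← add_assoc]
    exact add_mem_add (ih u hu) hd

lemma ks_zero (D : Finset Γ) (h : (0 : Γ) ∈ D) (k : ℕ) : (0 : Γ) ∈ ks k D := by
  induction k with
  | zero => simp [ks]
  | succ k ih =>
    have := add_mem_add ih h
    rw [add_zero] at this
    exact this

lemma ks_mono (D : Finset Γ) (h : (0 : Γ) ∈ D) (a b : ℕ) (hab : a ≤ b) (x : Γ)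
    (hx : x ∈ ks a D) : x ∈ ks b D := by
  obtain ⟨c, rfl⟩ := Nat.exists_eq_add_of_le hab
  have := ks_add D a c x 0 hx (ks_zero D h c)
  rwa [add_zero] at this

lemma ks_neg (D : Finset Γ) (h : ∀ d ∈ D, -d ∈ D) (k : ℕ) (x : Γ) (hx : x ∈ ks k D) :
    -x ∈ ks k D := by
  induction k generalizing x with
  | zero =>
    have : x = 0 := by simpa [ks] using hx
    rw [this, neg_zero]
    simp [ks]
  | succ k ih =>
    simp only [ks, mem_add] at hx
    obtain ⟨u, hu, d, hd, rfl⟩ := hx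
    rw [neg_add]
    exact add_mem_add (ih u hu) (h d hd)

lemma neg_mem_diff (B : Finset Γ) (d : Γ) (hd : d ∈ B - B) : -d ∈ B - B := by
  rw [mem_sub] at hd ⊢
  obtain ⟨a, ha, b, hb, rfl⟩ := hd
  exact ⟨b, hb, a, ha, by abel⟩

lemma zero_mem_diff (B : Finset Γ) (h : B.Nonempty) : (0 : Γ) ∈ B - B := by
  obtain ⟨b, hb⟩ := h
  rw [mem_sub]
  exact ⟨b, hb, b, hb, sub_self b⟩

lemma ks_sub (B : Finset Γ) (h : B.Nonempty) (a m : ℕ) (ham : a + a ≤ m) (x y : Γ)
    (hx : x ∈ ks a (B - B)) (hy : y ∈ ks a (B - B)) : x - y ∈ ks m (B - B) := by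
  rw [sub_eq_add_neg x y]
  exact ks_mono _ (zero_mem_diff B h) _ _ ham _
    (ks_add _ _ _ _ _ hx (ks_neg _ (neg_mem_diff B) _ _ hy))

variable [Fintype Γ]

lemma partA (X B W : Finset Γ) (f : Γ → Γ) (hf : Function.Injective f) (c q : ℕ)
    (hc : X.card ≤ c * B.card) (hX : X.Nonempty)
    (hd : ∀ b ∈ B, ∀ b' ∈ B, f b' - f b ∈ W) :
    ∃ Y : Finset Γ, Y.card ≤ c * q ∧
      ∀ z, B.card ≤ q * (B.filter (fun b => z + f b ∈ X)).card → ∃ y ∈ Y, z - y ∈ W := by
  classical
  let Z : Finset Γ := univ.filter fun z => B.card ≤ q * (B.filter (fun b => z + f b ∈ X)).card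
  let R : Γ → Finset Γ := fun z => (B.filter (fun b => z + f b ∈ X)).image (fun b => z + f b)
  obtain ⟨Y, -, hY2, hY3⟩ := cover X Z R (c * q)
    (by
      intro z _ w hw
      simp only [R, mem_image, mem_filter] at hw
      obtain ⟨b, ⟨-, hb⟩, rfl⟩ := hw
      exact hb)
    (by
      intro z hz
      have h1 : (R z).card = (B.filter (fun b => z + f b ∈ X)).card :=
        card_image_of_injective _ fun a b hab => hf (add_left_cancel hab)
      have h2 : B.card ≤ q * (B.filter (fun b => z + f b ∈ X)).card := by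
        simpa [Z] using hz
      rw [h1, mul_assoc]
      exact hc.trans (Nat.mul_le_mul_left _ h2))
    hX
  refine ⟨Y, hY2, fun z hz => ?_⟩
  obtain ⟨y, hy, u, hu1, hu2⟩ := hY3 z (by simpa [Z] using hz)
  simp only [R, mem_image, mem_filter] at hu1 hu2
  obtain ⟨b, ⟨hb, -⟩, h1⟩ := hu1
  obtain ⟨b', ⟨hb', -⟩, h2⟩ := hu2
  refine ⟨y, hy, ?_⟩
  have h3 : z - y = f b' - f b := by
    rw [sub_eq_sub_iff_add_eq_add, h1, ← h2, add_comm]
  rw [h3]
  exact hd b hb b' hb'

lemma partB (B T W : Finset Γ) (f : Γ → Γ) (q : ℕ) (t : Γ) (hB : B.Nonempty)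
    (hd : ∀ x ∈ T, ∀ y ∈ T, x - y ∈ W) :
    ∃ Y : Finset Γ, Y.card ≤ q ∧
      ∀ z, B.card ≤ q * (B.filter (fun b => z + f b - t ∈ T)).card → ∃ y ∈ Y, z - y ∈ W := by
  classical
  let Z : Finset Γ := univ.filter fun z => B.card ≤ q * (B.filter (fun b => z + f b - t ∈ T)).card
  let R : Γ → Finset Γ := fun z => B.filter (fun b => z + f b - t ∈ T)
  obtain ⟨Y, -, hY2, hY3⟩ := cover B Z R q (fun z _ => filter_subset _ _)
    (fun z hz => by simpa [Z, R] using hz) hB
  refine ⟨Y, hY2, fun z hz => ?_⟩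
  obtain ⟨y, hy, u, hu1, hu2⟩ := hY3 z (by simpa [Z] using hz)
  simp only [R, mem_filter] at hu1 hu2
  refine ⟨y, hy, ?_⟩
  have h3 : z - y = (z + f u - t) - (y + f u - t) := by abel
  rw [h3]
  exact hd _ hu1.2 _ hu2.2

lemma half (A V B B₀ : Finset Γ) (f : Γ → Γ) (hf : Function.Injective f)
    (K K' k k' c M : ℕ) (s : Finset (Γ × Finset Γ))
    (hs : ∀ p ∈ s, p.2 ⊆ A ∧ p.2.Nonempty ∧ (p.2 - p.2).card ≤ K * p.2.card)
    (hsV : ∀ x ∈ V, ∃ p ∈ s, x - p.1 ∈ ks k (p.2 - p.2))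
    (hBne : B.Nonempty) (hX : (A \ V).Nonempty)
    (hc : (A \ V).card ≤ c * B.card) (hB₀ : B₀ ⊆ A) (hB₀ne : B₀.Nonempty)
    (hK' : (B₀ - B₀).card ≤ K' * B₀.card)
    (hd : ∀ b ∈ B, ∀ b' ∈ B, f b' - f b ∈ ks (2 * (k + k')) (B₀ - B₀)) :
    ∃ s' : Finset (Γ × Finset Γ), s'.card ≤ c * (4 * M) + s.card * (4 * M * s.card) ∧
      (∀ p ∈ s', p.2 ⊆ A ∧ p.2.Nonempty ∧ (p.2 - p.2).card ≤ max K K' * p.2.card) ∧
      ∀ z, (B.card ≤ 4 * M * (B.filter (fun b => z + f b ∈ A \ V)).card ∨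
        B.card ≤ 4 * M * (B.filter (fun b => z + f b ∈ V)).card) →
        ∃ p ∈ s', z - p.1 ∈ ks (2 * (k + k')) (p.2 - p.2) := by
  classical
  obtain ⟨Y, hY1, hY2⟩ := partA (A \ V) B (ks (2 * (k + k')) (B₀ - B₀)) f hf c (4 * M) hc hX hd
  have hp : ∀ p : Γ × Finset Γ, ∃ Yp : Finset Γ, p ∈ s → Yp.card ≤ 4 * M * s.card ∧
      ∀ z, B.card ≤ 4 * M * s.card *
        (B.filter (fun b => z + f b - p.1 ∈ ks k (p.2 - p.2))).card →
        ∃ y ∈ Yp, z - y ∈ ks (2 * (k + k')) (p.2 - p.2) := by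
    intro p
    by_cases hps : p ∈ s
    · obtain ⟨Yp, h1, h2⟩ := partB B (ks k (p.2 - p.2)) (ks (2 * (k + k')) (p.2 - p.2)) f
        (4 * M * s.card) p.1 hBne
        (fun x hx y hy => ks_sub p.2 (hs p hps).2.1 k _ (by omega) x y hx hy)
      exact ⟨Yp, fun _ => ⟨h1, h2⟩⟩
    · exact ⟨∅, fun h => absurd h hps⟩
  choose Yp hYp using hp
  refine ⟨Y.image (fun y => (y, B₀)) ∪ s.biUnion (fun p => (Yp p).image (fun y => (y, p.2))),
    ?_, ?_, ?_⟩
  · refine (card_union_le _ _).trans (Nat.add_le_add (card_image_le.trans hY1) ?_)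
    refine card_biUnion_le.trans ?_
    calc ∑ p ∈ s, ((Yp p).image (fun y => (y, p.2))).card ≤ ∑ _p ∈ s, 4 * M * s.card :=
          sum_le_sum fun p hps => card_image_le.trans (hYp p hps).1
      _ = s.card * (4 * M * s.card) := by rw [sum_const, smul_eq_mul]
  · intro p hp
    rw [mem_union, mem_image, mem_biUnion] at hp
    rcases hp with ⟨y, -, rfl⟩ | ⟨p', hp', h⟩
    · exact ⟨hB₀, hB₀ne, hK'.trans (Nat.mul_le_mul_right _ (le_max_right _ _))⟩
    · rw [mem_image] at h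
      obtain ⟨y, -, rfl⟩ := h
      exact ⟨(hs p' hp').1, (hs p' hp').2.1,
        (hs p' hp').2.2.trans (Nat.mul_le_mul_right _ (le_max_left _ _))⟩
  · rintro z (hz | hz)
    · obtain ⟨y, hy, h⟩ := hY2 z hz
      exact ⟨(y, B₀), mem_union_left _ (mem_image_of_mem _ hy), h⟩
    · have h1 : (B.filter (fun b => z + f b ∈ V)).card ≤
          ∑ p ∈ s, (B.filter (fun b => z + f b - p.1 ∈ ks k (p.2 - p.2))).card := by
        refine (card_le_card ?_).trans card_biUnion_le
        intro b hb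
        rw [mem_filter] at hb
        obtain ⟨p, hps, hpx⟩ := hsV _ hb.2
        rw [mem_biUnion]
        exact ⟨p, hps, mem_filter.2 ⟨hb.1, hpx⟩⟩
      have h2 : ∃ p ∈ s, B.card ≤ 4 * M * s.card *
          (B.filter (fun b => z + f b - p.1 ∈ ks k (p.2 - p.2))).card := by
        by_contra hcon
        push Not at hcon
        have hpos := hBne.card_pos
        rcases s.eq_empty_or_nonempty with hse | hse
        · rw [hse, sum_empty] at h1
          have h3 : (B.filter (fun b => z + f b ∈ V)).card = 0 := by omega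
          rw [h3, mul_zero] at hz
          omega
        · have h3 : ∑ p ∈ s, 4 * M * s.card *
              (B.filter (fun b => z + f b - p.1 ∈ ks k (p.2 - p.2))).card < ∑ _p ∈ s, B.card :=
            sum_lt_sum_of_nonempty hse hcon
          rw [← mul_sum, sum_const, smul_eq_mul] at h3
          have h4 : s.card * B.card ≤ s.card * (4 * M *
              ∑ p ∈ s, (B.filter (fun b => z + f b - p.1 ∈ ks k (p.2 - p.2))).card) :=
            Nat.mul_le_mul_left _ (hz.trans (Nat.mul_le_mul_left _ h1))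
          have h5 : s.card * (4 * M *
              ∑ p ∈ s, (B.filter (fun b => z + f b - p.1 ∈ ks k (p.2 - p.2))).card) =
              4 * M * s.card *
              ∑ p ∈ s, (B.filter (fun b => z + f b - p.1 ∈ ks k (p.2 - p.2))).card := by ring
          rw [h5] at h4
          omega
      obtain ⟨p, hps, h3⟩ := h2
      obtain ⟨y, hy, h4⟩ := (hYp p hps).2 z h3
      exact ⟨(y, p.2), mem_union_right _ (mem_biUnion.2 ⟨p, hps, mem_image_of_mem _ hy⟩), h4⟩

end

theorem cov_next {Γ : Type} [AddCommGroup Γ] [Fintype Γ] [DecidableEq Γ]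
    (A V B B₀ : Finset Γ) (g : Γ) (K K' k k' L c j : ℕ)
    (hcov : Cov A K k L V) (hB : B ⊆ A \ V) (hBne : B.Nonempty)
    (hc : (A \ V).card ≤ c * B.card) (hB₀ : B₀ ⊆ A) (hB₀ne : B₀.Nonempty)
    (hK' : (B₀ - B₀).card ≤ K' * B₀.card) (hBg : ∀ b ∈ B, b - g ∈ ks k' (B₀ - B₀)) :
    Cov A (max K K') (2 * (k + k')) (L + 8 * c * 3 ^ j + 8 * 3 ^ j * L ^ 2) (Vn j A V B) := by
  classical
  obtain ⟨s, hsL, hs, hsV⟩ := hcov
  have hX : (A \ V).Nonempty := hBne.mono hB
  obtain ⟨s1, h1a, h1b, h1c⟩ := half A V B B₀ (fun b => b) (fun a b h => h) K K' k k' c (3 ^ j) s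
    hs hsV hBne hX hc hB₀ hB₀ne hK' (fun b hb b' hb' => by
      have : b' - b = (b' - g) - (b - g) := by abel
      rw [this]
      exact ks_sub B₀ hB₀ne k' _ (by omega) _ _ (hBg b' hb') (hBg b hb))
  obtain ⟨s2, h2a, h2b, h2c⟩ := half A V B B₀ (fun b => -b) neg_injective K K' k k' c (3 ^ j) s
    hs hsV hBne hX hc hB₀ hB₀ne hK' (fun b hb b' hb' => by
      have : -b' - -b = (b - g) - (b' - g) := by abel
      rw [this]
      exact ks_sub B₀ hB₀ne k' _ (by omega) _ _ (hBg b hb) (hBg b' hb'))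
  refine ⟨s ∪ (s1 ∪ s2), ?_, ?_, ?_⟩
  · have h3 : (s ∪ (s1 ∪ s2)).card ≤ s.card + (s1.card + s2.card) :=
      (card_union_le _ _).trans (Nat.add_le_add_left (card_union_le _ _) _)
    have h4 : s.card * (4 * 3 ^ j * s.card) ≤ L * (4 * 3 ^ j * L) :=
      Nat.mul_le_mul hsL (Nat.mul_le_mul_left _ hsL)
    have h5 : L + 8 * c * 3 ^ j + 8 * 3 ^ j * L ^ 2 =
        L + (c * (4 * 3 ^ j) + L * (4 * 3 ^ j * L)) + (c * (4 * 3 ^ j) + L * (4 * 3 ^ j * L)) := by
      ring
    rw [h5]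
    omega
  · intro p hp
    rw [mem_union, mem_union] at hp
    rcases hp with hp | hp | hp
    · exact ⟨(hs p hp).1, (hs p hp).2.1,
        (hs p hp).2.2.trans (Nat.mul_le_mul_right _ (le_max_left _ _))⟩
    · exact h1b p hp
    · exact h2b p hp
  · intro z hz
    simp only [Vn, mem_union, mem_filter, mem_univ, true_and] at hz
    by_cases hzV : z ∈ V
    · obtain ⟨p, hps, hpz⟩ := hsV z hzV
      exact ⟨p, mem_union_left _ hps,
        ks_mono _ (zero_mem_diff _ (hs p hps).2.1) _ _ (by omega) _ hpz⟩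
    · have hz1 := hz.resolve_left hzV
      have h3 : (B.filter (fun b => (z + b ∈ A ∨ z + b ∈ V) ∨ (z - b ∈ A ∨ z - b ∈ V))).card ≤
          (B.filter (fun b => z + b ∈ A \ V)).card + (B.filter (fun b => z + b ∈ V)).card +
          ((B.filter (fun b => z + -b ∈ A \ V)).card +
            (B.filter (fun b => z + -b ∈ V)).card) := by
        refine le_trans (card_le_card (t := (B.filter (fun b => z + b ∈ A \ V) ∪
          B.filter (fun b => z + b ∈ V)) ∪ (B.filter (fun b => z + -b ∈ A \ V) ∪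
          B.filter (fun b => z + -b ∈ V))) ?_) ?_
        · intro b hb
          simp only [mem_union, mem_filter, mem_sdiff, ← sub_eq_add_neg] at hb ⊢
          tauto
        · exact (card_union_le _ _).trans
            (Nat.add_le_add (card_union_le _ _) (card_union_le _ _))
      have h4 : (B.card ≤ 4 * 3 ^ j * (B.filter (fun b => z + b ∈ A \ V)).card ∨
          B.card ≤ 4 * 3 ^ j * (B.filter (fun b => z + b ∈ V)).card) ∨
          (B.card ≤ 4 * 3 ^ j * (B.filter (fun b => z + -b ∈ A \ V)).card ∨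
          B.card ≤ 4 * 3 ^ j * (B.filter (fun b => z + -b ∈ V)).card) := by
        by_contra hcon
        push Not at hcon
        obtain ⟨⟨e1, e2⟩, e3, e4⟩ := hcon
        have h5 := hz1.trans (Nat.mul_le_mul_left (3 ^ j) h3)
        nlinarith
      rcases h4 with h4 | h4
      · obtain ⟨p, hp, hpz⟩ := h1c z h4
        exact ⟨p, mem_union_right _ (mem_union_left _ hp), hpz⟩
      · obtain ⟨p, hp, hpz⟩ := h2c z h4
        exact ⟨p, mem_union_right _ (mem_union_right _ hp), hpz⟩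

end Pool.Agent.TH424.CG
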